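import Pool.Agent.H12.KP.Targets4

/-!
# Project KEW, block (i): row RED
-/

namespace Pool.Agent.H3.KP

open Pool.Agent.H12.KP Polynomial TensorProduct

universe u v w

set_option linter.unusedSectionVars false
set_option linter.unusedVariables false

section LocLemmas

variable {A : Type u} {D : Type v} [CommRing A] [CommRing D] [IsDomain D] [Algebra A D]
  (𝒟 : ℕ → Submodule A D) [GradedAlgebra 𝒟] (L : Type w) [Field L] [Algebra D L]
  [IsFractionRing D L]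

lemma am_ne {b : D} (hb : b ≠ 0) : algebraMap D L b ≠ 0 := by
  intro h
  exact hb ((IsFractionRing.injective D L) (by rw [h, map_zero]))

lemma not_mem_ne {P : Ideal D} {b : D} (hb : b ∉ P) : b ≠ 0 := by
  rintro rfl; exact hb P.zero_mem

lemma loc_one (P : Ideal D) (hP : P.IsPrime) : (1 : L) ∈ Loc 𝒟 L P := by
  refine ⟨0, 1, SetLike.one_mem_graded 𝒟, 1, SetLike.one_mem_graded 𝒟, ?_, by simp⟩
  exact fun h => hP.ne_top ((Ideal.eq_top_iff_one P).2 h)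

lemma loc_zero (P : Ideal D) (hP : P.IsPrime) : (0 : L) ∈ Loc 𝒟 L P := by
  refine ⟨0, 0, Submodule.zero_mem _, 1, SetLike.one_mem_graded 𝒟, ?_, by simp⟩
  exact fun h => hP.ne_top ((Ideal.eq_top_iff_one P).2 h)

lemma loc_zeroDeg (P : Ideal D) (hP : P.IsPrime) {d : D} (hd : d ∈ 𝒟 0) :
    algebraMap D L d ∈ Loc 𝒟 L P := by
  refine ⟨0, d, hd, 1, SetLike.one_mem_graded 𝒟, ?_, by simp⟩
  exact fun h => hP.ne_top ((Ideal.eq_top_iff_one P).2 h)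

lemma loc_mul (P : Ideal D) (hP : P.IsPrime) {z w : L} (hz : z ∈ Loc 𝒟 L P)
    (hw : w ∈ Loc 𝒟 L P) : z * w ∈ Loc 𝒟 L P := by
  obtain ⟨d, a, ha, b, hb, hbP, h⟩ := hz
  obtain ⟨d', a', ha', b', hb', hbP', h'⟩ := hw
  refine ⟨d + d', a * a', SetLike.mul_mem_graded ha ha', b * b', SetLike.mul_mem_graded hb hb',
    ?_, ?_⟩
  · intro hc
    rcases hP.mem_or_mem hc with h1 | h1
    · exact hbP h1
    · exact hbP' h1
  · rw [map_mul, map_mul, ← h, ← h']; ring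

lemma loc_add (P : Ideal D) (hP : P.IsPrime) {z w : L} (hz : z ∈ Loc 𝒟 L P)
    (hw : w ∈ Loc 𝒟 L P) : z + w ∈ Loc 𝒟 L P := by
  obtain ⟨d, a, ha, b, hb, hbP, h⟩ := hz
  obtain ⟨d', a', ha', b', hb', hbP', h'⟩ := hw
  refine ⟨d + d', a * b' + b * a', Submodule.add_mem _ (SetLike.mul_mem_graded ha hb')
    (SetLike.mul_mem_graded hb ha'), b * b', SetLike.mul_mem_graded hb hb', ?_, ?_⟩
  · intro hc
    rcases hP.mem_or_mem hc with h1 | h1
    · exact hbP h1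
    · exact hbP' h1
  · rw [map_add, map_mul, map_mul, map_mul, ← h, ← h']; ring

lemma loc_neg (P : Ideal D) {z : L} (hz : z ∈ Loc 𝒟 L P) : -z ∈ Loc 𝒟 L P := by
  obtain ⟨d, a, ha, b, hb, hbP, h⟩ := hz
  refine ⟨d, -a, Submodule.neg_mem _ ha, b, hb, hbP, ?_⟩
  rw [map_neg, ← h]; ring

lemma loc_mono {P P' : Ideal D} (hPP : P ≤ P') {z : L} (hz : z ∈ Loc 𝒟 L P') :
    z ∈ Loc 𝒟 L P := by
  obtain ⟨d, a, ha, b, hb, hbP, h⟩ := hz
  exact ⟨d, a, ha, b, hb, fun h' => hbP (hPP h'), h⟩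

lemma loc_pow (P : Ideal D) (hP : P.IsPrime) {z : L} (hz : z ∈ Loc 𝒟 L P) (q : ℕ) :
    z ^ q ∈ Loc 𝒟 L P := by
  induction q with
  | zero => rw [pow_zero]; exact loc_one 𝒟 L P hP
  | succ k ih => rw [pow_succ]; exact loc_mul 𝒟 L P hP ih hz

lemma loc_frac {P : Ideal D} {d : ℕ} {a b : D} (ha : a ∈ 𝒟 d) (hb : b ∈ 𝒟 d) (hbP : b ∉ P) :
    algebraMap D L a / algebraMap D L b ∈ Loc 𝒟 L P :=
  ⟨d, a, ha, b, hb, hbP, div_mul_cancel₀ _ (am_ne L (not_mem_ne hbP))⟩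

lemma loc_bot_inv {z : L} (hz : z ∈ Loc 𝒟 L ⊥) (hz0 : z ≠ 0) : z⁻¹ ∈ Loc 𝒟 L ⊥ := by
  obtain ⟨d, a, ha, b, hb, hbP, h⟩ := hz
  have hb0 : algebraMap D L b ≠ 0 := am_ne L (not_mem_ne hbP)
  refine ⟨d, b, hb, a, ha, ?_, ?_⟩
  · intro h0
    rw [Ideal.mem_bot] at h0
    rw [h0, map_zero] at h
    rcases mul_eq_zero.1 h with h1 | h1
    · exact hz0 h1
    · exact hb0 h1
  · rw [← h, inv_mul_cancel_left₀ hz0]

/-- `w ∈ 1 + π^n Loc P`. -/
def UU (ϖ : D) (n : ℕ) (P : Ideal D) (w : L) : Prop :=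
  ∃ s ∈ Loc 𝒟 L P, w = 1 + algebraMap D L ϖ ^ n * s

variable {ϖ : D} (hϖ : ϖ ∈ 𝒟 0) {n : ℕ} (hn : 1 ≤ n)

include hϖ in
lemma UU.mul {P : Ideal D} (hP : P.IsPrime) {z w : L} (hz : UU 𝒟 L ϖ n P z)
    (hw : UU 𝒟 L ϖ n P w) : UU 𝒟 L ϖ n P (z * w) := by
  obtain ⟨s, hs, rfl⟩ := hz
  obtain ⟨t, ht, rfl⟩ := hw
  refine ⟨s + t + algebraMap D L ϖ ^ n * (s * t), ?_, by ring⟩
  refine loc_add 𝒟 L P hP (loc_add 𝒟 L P hP hs ht) (loc_mul 𝒟 L P hP ?_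
    (loc_mul 𝒟 L P hP hs ht))
  exact loc_pow 𝒟 L P hP (loc_zeroDeg 𝒟 L P hP hϖ) n

lemma UU.one {P : Ideal D} (hP : P.IsPrime) : UU 𝒟 L ϖ n P 1 :=
  ⟨0, loc_zero 𝒟 L P hP, by simp⟩

include hϖ in
lemma UU.pow {P : Ideal D} (hP : P.IsPrime) {z : L} (hz : UU 𝒟 L ϖ n P z) (q : ℕ) :
    UU 𝒟 L ϖ n P (z ^ q) := by
  induction q with
  | zero => rw [pow_zero]; exact UU.one 𝒟 L hP
  | succ k ih => rw [pow_succ]; exact UU.mul 𝒟 L hϖ hP ih hz

include hϖ in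
lemma UU.mem {P : Ideal D} (hP : P.IsPrime) {z : L} (hz : UU 𝒟 L ϖ n P z) :
    z ∈ Loc 𝒟 L P := by
  obtain ⟨s, hs, rfl⟩ := hz
  exact loc_add 𝒟 L P hP (loc_one 𝒟 L P hP) (loc_mul 𝒟 L P hP
    (loc_pow 𝒟 L P hP (loc_zeroDeg 𝒟 L P hP hϖ) n) hs)

lemma UU.mono {P P' : Ideal D} (hPP : P ≤ P') {z : L} (hz : UU 𝒟 L ϖ n P' z) :
    UU 𝒟 L ϖ n P z := by
  obtain ⟨s, hs, rfl⟩ := hz
  exact ⟨s, loc_mono 𝒟 L hPP hs, rfl⟩

include hϖ hn in
lemma UU.aux {P : Ideal D} (hP : P.IsPrime) (hπP : ϖ ∈ P) {z : L} (hz : UU 𝒟 L ϖ n P z) :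
    z ≠ 0 ∧ z⁻¹ ∈ Loc 𝒟 L P := by
  obtain ⟨s, ⟨d, a, ha, b, hb, hbP, h⟩, rfl⟩ := hz
  have hb0 : algebraMap D L b ≠ 0 := am_ne L (not_mem_ne hbP)
  have hmem : b + ϖ ^ n * a ∈ 𝒟 d := by
    refine Submodule.add_mem _ hb ?_
    have h1 := SetLike.pow_mem_graded n hϖ
    rw [smul_zero] at h1
    have h2 := SetLike.mul_mem_graded h1 ha
    rwa [zero_add] at h2
  have hnot : b + ϖ ^ n * a ∉ P := by
    intro hc
    apply hbP
    have h3 : ϖ ^ n * a ∈ P := P.mul_mem_right _ (Ideal.pow_mem_of_mem P hπP n hn)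
    exact (Ideal.add_mem_iff_left P h3).1 hc
  have hkey : (1 + algebraMap D L ϖ ^ n * s) * algebraMap D L b =
      algebraMap D L (b + ϖ ^ n * a) := by
    rw [map_add, map_mul, map_pow, ← h]; ring
  have hne : (1 + algebraMap D L ϖ ^ n * s) ≠ 0 := by
    intro h0
    rw [h0, zero_mul] at hkey
    exact am_ne L (not_mem_ne hnot) hkey.symm
  refine ⟨hne, d, b, hb, b + ϖ ^ n * a, hmem, hnot, ?_⟩
  rw [← hkey, inv_mul_cancel_left₀ hne]

include hϖ hn in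
lemma UU.inv {P : Ideal D} (hP : P.IsPrime) (hπP : ϖ ∈ P) {z : L} (hz : UU 𝒟 L ϖ n P z) :
    UU 𝒟 L ϖ n P z⁻¹ := by
  obtain ⟨hne, hinv⟩ := UU.aux 𝒟 L hϖ hn hP hπP hz
  obtain ⟨s, hs, rfl⟩ := hz
  refine ⟨-(s * (1 + algebraMap D L ϖ ^ n * s)⁻¹), loc_neg 𝒟 L P (loc_mul 𝒟 L P hP hs hinv), ?_⟩
  field_simp
  ring

end LocLemmas

lemma ht1 {D : Type v} [CommRing D] [IsDomain D] [IsNoetherianRing D] {ϖ : D}
    {y P : Ideal D} (hy : y ∈ (Ideal.span {ϖ}).minimalPrimes) (hP : P.IsPrime) (hPy : P ≤ y)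
    (hP0 : P ≠ ⊥) : P = y := by
  have hyp : y.IsPrime := hy.1.1
  by_contra hne
  have hlt : P < y := lt_of_le_of_ne hPy hne
  have h1 : y.height ≤ 1 := Ideal.height_le_one_of_isPrincipal_of_mem_minimalPrimes
    (Ideal.span {ϖ}) y hy
  have h2 : P.height < y.height := Ideal.height_strict_mono_of_isPrime hlt
  have h3 : P.height = 0 := by
    have h4 : P.height < 1 := lt_of_lt_of_le h2 h1
    exact Order.lt_one_iff.1 h4
  exact hP0 (Ideal.height_eq_zero_iff_eq_bot.1 h3)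

theorem pf_RED (hW : S_WAG.{u}) (hC : S_CDEN.{u}) : S_RED.{u} := by
  classical
  intro A D _ _ _ _ _ _ 𝒟 _ L _ _ _ π hR n q hn hq x hx h hh hh0 hloc
  have hDn : IsNoetherianRing D := by
    have hft : Algebra.FiniteType A D := by
      obtain ⟨s, hs⟩ := hR.fg
      refine ⟨⟨s, ?_⟩⟩
      have h1 := hR.gen
      rw [← hs, Algebra.adjoin_span] at h1
      exact h1
    exact Algebra.FiniteType.isNoetherianRing A D
  set ϖ : D := algebraMap A D π with hϖdef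
  have hϖ0 : ϖ ≠ 0 := hR.ne
  have hϖ : ϖ ∈ 𝒟 0 := SetLike.algebraMap_mem_graded 𝒟 π
  have hϖL : algebraMap D L ϖ ≠ 0 := am_ne L hϖ0
  have hbot : (⊥ : Ideal D).IsPrime := Ideal.isPrime_bot
  -- the generic points of the special fibre
  obtain ⟨Y, hY⟩ : ∃ Y : Finset (Ideal D), ∀ y, y ∈ Y ↔
      y ∈ (Ideal.span {ϖ}).minimalPrimes ∧ Rel 𝒟 y := by
    have hfin : ((Ideal.span {ϖ}).minimalPrimes ∩ {y | Rel 𝒟 y}).Finite :=
      (Ideal.finite_minimalPrimes_of_isNoetherianRing D (Ideal.span {ϖ})).inter_of_left _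
    refine ⟨hfin.toFinset, fun y => ?_⟩
    rw [Set.Finite.mem_toFinset]
    exact Iff.rfl
  have hYp : ∀ y ∈ Y, y.IsPrime := fun y hy => ((hY y).1 hy).2.1
  have hYπ : ∀ y ∈ Y, ϖ ∈ y := fun y hy => by
    have := ((hY y).1 hy).1.1.2
    exact this (Ideal.mem_span_singleton_self ϖ)
  have hxp : x.IsPrime := hx.1.1
  have hxπ : ϖ ∈ x := hx.2.1
  -- Step 1
  have hdat : ∀ y : Ideal D, ∃ (m : ℕ) (a c : D), y ∈ Y → y ≤ x → a ∈ 𝒟 m ∧ c ∈ 𝒟 m ∧ a ≠ 0 ∧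
      c ≠ 0 ∧ UU 𝒟 L ϖ n y (h / (algebraMap D L a / algebraMap D L c) ^ q) := by
    intro y
    by_cases hy : y ∈ Y ∧ y ≤ x
    · obtain ⟨g, ⟨m, a, ha, c, hc, hcb, hg⟩, hg0, s, hs, hhs⟩ :=
        hloc y ((hY y).1 hy.1).1 ((hY y).1 hy.1).2 hy.2
      have hc0 : algebraMap D L c ≠ 0 := am_ne L (not_mem_ne hcb)
      have hgac : g = algebraMap D L a / algebraMap D L c := by
        rw [eq_div_iff hc0]; exact hg
      refine ⟨m, a, c, fun _ _ => ⟨ha, hc, ?_, not_mem_ne hcb, s, hs, ?_⟩⟩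
      · rintro rfl
        rw [map_zero, zero_div] at hgac
        exact hg0 hgac
      · rw [← hgac, hhs, mul_comm, mul_div_assoc, div_self (pow_ne_zero q hg0), mul_one]
    · exact ⟨0, 0, 0, fun h1 h2 => absurd ⟨h1, h2⟩ hy⟩
  choose m a c hmac using hdat
  obtain ⟨k, f, g', hf, hg', hf0, hg'0, hfg⟩ := hW A D 𝒟 L π hϖ0 n hn (Y.filter (fun y => y ≤ x))
    m a c (fun z hz => by
      rw [Finset.mem_filter] at hz
      exact ⟨((hY z).1 hz.1).2, hYπ z hz.1⟩)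
    (fun z hz => by
      rw [Finset.mem_filter] at hz
      obtain ⟨h1, h2, h3, h4, _⟩ := hmac z hz.1 hz.2
      exact ⟨h1, h2, h3, h4⟩)
    (fun z hz z' hz' hne P hP hmem hPz hPz' => by
      rw [Finset.mem_filter] at hz hz'
      obtain ⟨h1, h2, h3, h4, _⟩ := hmac z hz.1 hz.2
      have hP0 : P ≠ ⊥ := by
        rintro rfl
        rw [Ideal.mem_bot] at hmem
        exact (mul_ne_zero hϖ0 (mul_ne_zero h3 h4)) hmem
      have e1 := ht1 ((hY z).1 hz.1).1 hP hPz hP0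
      have e2 := ht1 ((hY z').1 hz'.1).1 hP hPz' hP0
      exact hne (e1.symm.trans e2))
  have hfL : algebraMap D L f ≠ 0 := am_ne L hf0
  have hgL : algebraMap D L g' ≠ 0 := am_ne L hg'0
  set G : L := algebraMap D L f / algebraMap D L g' with hGdef
  have hG0 : G ≠ 0 := div_ne_zero hfL hgL
  have hGl : G ∈ Loc 𝒟 L ⊥ := loc_frac 𝒟 L hf hg' (by rw [Ideal.mem_bot]; exact hg'0)
  set h1 : L := h / G ^ q with hh1
  have hh10 : h1 ≠ 0 := div_ne_zero hh0 (pow_ne_zero q hG0)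
  have hh1l : h1 ∈ Loc 𝒟 L ⊥ := by
    rw [hh1, div_eq_mul_inv]
    exact loc_mul 𝒟 L _ hbot hh (loc_bot_inv 𝒟 L (loc_pow 𝒟 L _ hbot hGl q)
      (pow_ne_zero q hG0))
  have hh1U : ∀ y ∈ Y, y ≤ x → UU 𝒟 L ϖ n y h1 := by
    intro y hy hyx
    obtain ⟨e1, e2, e3, e4, e5⟩ := hmac y hy hyx
    have hz := hfg y (Finset.mem_filter.2 ⟨hy, hyx⟩)
    have haL : algebraMap D L (a y) ≠ 0 := am_ne L e3
    have hcL : algebraMap D L (c y) ≠ 0 := am_ne L e4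
    have hz' : UU 𝒟 L ϖ n y (algebraMap D L (f * c y) / algebraMap D L (g' * a y)) := hz
    have hz2 := UU.inv 𝒟 L hϖ hn (hYp y hy) (hYπ y hy) (UU.pow 𝒟 L hϖ (hYp y hy) hz' q)
    have hz3 := UU.mul 𝒟 L hϖ (hYp y hy) e5 hz2
    have heq : h / (algebraMap D L (a y) / algebraMap D L (c y)) ^ q *
        ((algebraMap D L (f * c y) / algebraMap D L (g' * a y)) ^ q)⁻¹ = h1 := by
      rw [hh1, hGdef, map_mul, map_mul]
      rw [div_pow, div_pow, div_pow, mul_pow, mul_pow]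
      have q1 := pow_ne_zero q haL
      have q2 := pow_ne_zero q hcL
      have q3 := pow_ne_zero q hfL
      have q4 := pow_ne_zero q hgL
      field_simp
    rwa [heq] at hz3
  -- Step 2
  obtain ⟨m0, a0, ha0, c0, hc0, hc0b, hac⟩ := hh1l
  have hc00 : c0 ≠ 0 := not_mem_ne hc0b
  have hc0L : algebraMap D L c0 ≠ 0 := am_ne L hc00
  have ha00 : a0 ≠ 0 := by
    rintro rfl
    rw [map_zero] at hac
    rcases mul_eq_zero.1 hac with h2 | h2
    · exact hh10 h2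
    · exact hc0L h2
  have ha0L : algebraMap D L a0 ≠ 0 := am_ne L ha00
  have hh1e : h1 = algebraMap D L a0 / algebraMap D L c0 := by
    rw [eq_div_iff hc0L]; exact hac
  set Z : Finset (Ideal D) := insert x (Y.filter (fun y => ¬ y ≤ x)) with hZ
  have hZx : ∀ z ∈ Z, z ≠ x → z ∈ Y ∧ ¬ z ≤ x := by
    intro z hz hzx
    rw [hZ, Finset.mem_insert] at hz
    rcases hz with h2 | h2
    · exact absurd h2 hzx
    · exact Finset.mem_filter.1 h2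
  obtain ⟨k2, f2, g2, hf2, hg2, hf20, hg20, hfg2⟩ := hW A D 𝒟 L π hϖ0 n hn Z
    (fun z => if z = x then 0 else m0) (fun z => if z = x then 1 else a0)
    (fun z => if z = x then 1 else c0)
    (fun z hz => by
      by_cases hzx : z = x
      · rw [hzx]; exact ⟨hx.1, hxπ⟩
      · obtain ⟨h2, h3⟩ := hZx z hz hzx
        exact ⟨((hY z).1 h2).2, hYπ z h2⟩)
    (fun z hz => by
      by_cases hzx : z = x
      · simp only [if_pos hzx]
        exact ⟨SetLike.one_mem_graded 𝒟, SetLike.one_mem_graded 𝒟, one_ne_zero, one_ne_zero⟩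
      · simp only [if_neg hzx]
        exact ⟨ha0, hc0, ha00, hc00⟩)
    (fun z hz z' hz' hne P hP hmem hPz hPz' => by
      by_cases hzx : z = x
      · simp only [if_pos hzx, mul_one] at hmem
        have hz'x : z' ≠ x := fun h2 => hne (hzx.trans h2.symm)
        obtain ⟨h2, h3⟩ := hZx z' hz' hz'x
        have hP0 : P ≠ ⊥ := by
          rintro rfl
          rw [Ideal.mem_bot] at hmem
          exact hϖ0 hmem
        have e1 := ht1 ((hY z').1 h2).1 hP hPz' hP0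
        exact h3 (e1 ▸ hzx ▸ hPz)
      · simp only [if_neg hzx] at hmem
        obtain ⟨h2, h3⟩ := hZx z hz hzx
        have hP0 : P ≠ ⊥ := by
          rintro rfl
          rw [Ideal.mem_bot] at hmem
          exact (mul_ne_zero hϖ0 (mul_ne_zero ha00 hc00)) hmem
        have e1 := ht1 ((hY z).1 h2).1 hP hPz hP0
        by_cases hz'x : z' = x
        · exact h3 (e1 ▸ hz'x ▸ hPz')
        · obtain ⟨h4, h5⟩ := hZx z' hz' hz'x
          have e2 := ht1 ((hY z').1 h4).1 hP hPz' hP0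
          exact hne (e1.symm.trans e2))
  have hf2L : algebraMap D L f2 ≠ 0 := am_ne L hf20
  have hg2L : algebraMap D L g2 ≠ 0 := am_ne L hg20
  set W : L := algebraMap D L f2 / algebraMap D L g2 with hWdef
  have hW0 : W ≠ 0 := div_ne_zero hf2L hg2L
  have hWl : W ∈ Loc 𝒟 L ⊥ := loc_frac 𝒟 L hf2 hg2 (by rw [Ideal.mem_bot]; exact hg20)
  have hWx : UU 𝒟 L ϖ n x W := by
    have h2 := hfg2 x (Finset.mem_insert_self _ _)
    simp only [if_true, mul_one] at h2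
    exact h2
  have hWx' := UU.aux 𝒟 L hϖ hn hxp hxπ hWx
  set U : L := h1 / W with hUdef
  have hUU : ∀ y ∈ Y, UU 𝒟 L ϖ n y U := by
    intro y hy
    by_cases hyx : y ≤ x
    · have h2 := UU.mono 𝒟 L hyx hWx
      have h3 := UU.inv 𝒟 L hϖ hn (hYp y hy) (hYπ y hy) h2
      have h4 := UU.mul 𝒟 L hϖ (hYp y hy) (hh1U y hy hyx) h3
      rw [hUdef, div_eq_mul_inv]
      exact h4
    · have hyne : y ≠ x := fun h2 => hyx h2.le
      have h2 := hfg2 y (Finset.mem_insert_of_mem (Finset.mem_filter.2 ⟨hy, hyx⟩))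
      simp only [if_neg hyne] at h2
      have h3 : UU 𝒟 L ϖ n y (algebraMap D L (f2 * c0) / algebraMap D L (g2 * a0)) := h2
      have h4 := UU.inv 𝒟 L hϖ hn (hYp y hy) (hYπ y hy) h3
      have h5 : (algebraMap D L (f2 * c0) / algebraMap D L (g2 * a0))⁻¹ = U := by
        rw [hUdef, hh1e, hWdef, map_mul, map_mul]
        field_simp
      rwa [h5] at h4
  -- common denominator
  set S : L := (U - 1) / algebraMap D L ϖ ^ n with hSdef
  have hϖn : algebraMap D L ϖ ^ n ≠ 0 := pow_ne_zero n hϖL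
  have hUS : U = 1 + algebraMap D L ϖ ^ n * S := by
    rw [hSdef, mul_div_cancel₀ _ hϖn]; ring
  have hSbot : S ∈ Loc 𝒟 L ⊥ := by
    rw [hSdef, div_eq_mul_inv]
    refine loc_mul 𝒟 L _ hbot ?_ ?_
    · rw [sub_eq_add_neg]
      refine loc_add 𝒟 L _ hbot ?_ (loc_neg 𝒟 L _ (loc_one 𝒟 L _ hbot))
      rw [hUdef, div_eq_mul_inv]
      exact loc_mul 𝒟 L _ hbot ⟨m0, a0, ha0, c0, hc0, hc0b, hac⟩ (loc_bot_inv 𝒟 L hWl hW0)
    · exact loc_bot_inv 𝒟 L (loc_pow 𝒟 L _ hbot (loc_zeroDeg 𝒟 L _ hbot hϖ) n) hϖn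
  have hSY : ∀ y ∈ Y, S ∈ Loc 𝒟 L y := by
    intro y hy
    obtain ⟨s, hs, hUs⟩ := hUU y hy
    have : S = s := by
      rw [hSdef, hUs]
      field_simp
      ring
    rw [this]; exact hs
  obtain ⟨mm, α, β, hα, hβ, hβ0, hβY, hSβ⟩ := hC A D 𝒟 L Y S hSbot
    (fun P hP => ((hY P).1 hP).2) hSY
  refine ⟨mm, α, β, hα, hβ, hβ0, fun y hy hyR => hβY y ((hY y).2 ⟨hy, hyR⟩), G, hGl, hG0, W,
    UU.mem 𝒟 L hϖ hxp hWx, hW0, hWx'.2, ?_⟩
  have hβL : algebraMap D L β ≠ 0 := am_ne L hβ0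
  have hSe : algebraMap D L α / algebraMap D L β = S := by
    rw [div_eq_iff hβL]; exact hSβ.symm
  rw [hSe, ← hUS, hUdef, hh1]
  have hGq := pow_ne_zero q hG0
  field_simp

end Pool.Agent.H3.KP
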